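import Pool.Agent.K3h54.VS.Part
import Pool.Agent.W850.Ord.Diag
import Pool.Agent.W850.Ord.LowDens

/-!
# A pigeonhole principle for densities, and the bad summands
-/

set_option autoImplicit false
set_option linter.all false

namespace Pool.Agent.K3h54.VS

open NumberField IsDedekindDomain Polynomial Filter Topology Finset
open Pool.Agent.W401.Cheb Pool.Agent.W528.Ord Pool.Agent.K3h30.NH Pool.Agent.K3h30.OC
open Pool.Agent.K3h30.VD Pool.Agent.W850.Ord
open Pool.Agent.R915.Ord (Piece polygon)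

section

variable {K : Type} [Field K] [NumberField K]

theorem ratio_union_le {β : Type} [Fintype β] (P : HeightOneSpectrum (𝓞 K) → Prop)
    (Q : β → HeightOneSpectrum (𝓞 K) → Prop) (h : ∀ v, P v → ∃ b, Q b v) (N : ℕ) :
    ratio P N ≤ ∑ b, ratio (Q b) N := by
  classical
  unfold ratio
  rw [← Finset.sum_div]
  apply div_le_div_of_nonneg_right _ (Nat.cast_nonneg _)
  have hfin : ∀ R : HeightOneSpectrum (𝓞 K) → Prop,
      {v : HeightOneSpectrum (𝓞 K) | Ideal.absNorm v.asIdeal ≤ N ∧ R v}.Finite := fun R =>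
    (Pool.Agent.W352.ChAbs.finite_le (K := K) N).subset fun v hv => hv.1
  have h1 : {v : HeightOneSpectrum (𝓞 K) | Ideal.absNorm v.asIdeal ≤ N ∧ P v} ⊆
      ⋃ b ∈ (univ : Finset β), {v : HeightOneSpectrum (𝓞 K) | Ideal.absNorm v.asIdeal ≤ N ∧ Q b v} := by
    intro v hv
    obtain ⟨b, hb⟩ := h v hv.2
    simp only [Set.mem_iUnion]
    exact ⟨b, mem_univ b, hv.1, hb⟩
  have h2 := Set.ncard_le_ncard h1 (Set.Finite.biUnion (finite_toSet _) fun b _ => hfin _)
  have h3 : ∀ s : Finset β, (⋃ b ∈ s, {v : HeightOneSpectrum (𝓞 K) |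
      Ideal.absNorm v.asIdeal ≤ N ∧ Q b v}).ncard ≤
      ∑ b ∈ s, {v : HeightOneSpectrum (𝓞 K) | Ideal.absNorm v.asIdeal ≤ N ∧ Q b v}.ncard := by
    intro s
    induction s using Finset.induction_on with
    | empty => simp
    | insert a s ha ih =>
      rw [Finset.set_biUnion_insert, sum_insert ha]
      exact (Set.ncard_union_le _ _).trans (Nat.add_le_add_left ih _)
  have h4 := h2.trans (h3 univ)
  have e : ∀ R : HeightOneSpectrum (𝓞 K) → Prop,
      Nat.card {v : HeightOneSpectrum (𝓞 K) // Ideal.absNorm v.asIdeal ≤ N ∧ R v} =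
        {v : HeightOneSpectrum (𝓞 K) | Ideal.absNorm v.asIdeal ≤ N ∧ R v}.ncard := fun R => rfl
  simp only [e]
  exact_mod_cast h4

/-- one of finitely many sets which cover a set of positive lower density has positive upper density -/
theorem pigeon {β : Type} [Fintype β] (P : HeightOneSpectrum (𝓞 K) → Prop)
    (Q : β → HeightOneSpectrum (𝓞 K) → Prop) (h : ∀ v, P v → ∃ b, Q b v)
    (hP : 0 < lowerDensity P) : ∃ b, 0 < limsup (ratio (Q b)) atTop := by
  classical
  by_contra hcon
  push Not at hcon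
  set δ := lowerDensity P with hδ
  have hβ : Nonempty β := by
    by_contra hne
    rw [not_nonempty_iff] at hne
    have h1 : ∀ v, ¬ P v := fun v hv => (hne.false (h v hv).choose).elim
    have h2 := infinite_of_pos P hP
    apply h2
    have : {v | P v} = ∅ := Set.eq_empty_iff_forall_notMem.2 fun v hv => h1 v hv
    rw [this]
    exact Set.finite_empty
  have hc : (0 : ℝ) < Fintype.card β := by exact_mod_cast Fintype.card_pos
  have h1 : ∀ b, ∀ᶠ N in atTop, ratio (Q b) N < δ / (2 * Fintype.card β) := by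
    intro b
    exact eventually_lt_of_limsup_lt (lt_of_le_of_lt (hcon b) (by positivity)) (hu := ⟨1, by
      rw [eventually_map]
      exact Eventually.of_forall fun N => ratio_le_one _ N⟩)
  have h2 : ∀ᶠ N in atTop, δ / 2 < ratio P N := by
    apply eventually_lt_of_lt_liminf _ (bdd_below (K := K) P)
    change δ / 2 < lowerDensity P
    linarith
  obtain ⟨N, hN1, hN2⟩ := ((eventually_all.2 h1).and h2).exists
  have h3 := ratio_union_le P Q h N
  have h4 : ∑ b, ratio (Q b) N ≤ ∑ b : β, δ / (2 * Fintype.card β) :=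
    sum_le_sum fun b _ => (hN1 b).le
  rw [sum_const, card_univ, nsmul_eq_mul] at h4
  have e : (Fintype.card β : ℝ) * (δ / (2 * Fintype.card β)) = δ / 2 := by
    field_simp
  linarith

end

/-- the bad summands with integral polynomials -/
theorem few_bad {p m : ℕ} {F : Fin m → ℤ[X]} (hF : ∀ j, F j ≠ 0) {H : Fin m → Multiset ℕ}
    {t : ℝ} (h : CloseSlopes p (∏ j, F j) (∑ j, H j) t) (hM : ∀ j, MazurSlopes p (F j) (H j)) :
    (Set.ncard {j : Fin m | ¬ NewtonSlopes p (F j) (H j)} : ℝ) ≤ 2 * t := by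
  classical
  have e : {j : Fin m | ¬ NewtonSlopes p (F j) (H j)} =
      (((univ : Finset (Fin m)).filter fun j => ¬ NewtonSlopes p (F j) (H j) : Finset (Fin m)) :
        Set (Fin m)) := by
    ext j
    simp
  rw [e, Set.ncard_coe_finset]
  obtain ⟨d, hd0, hd1, hd2⟩ := closeSlopes_parts hF h hM
  have h1 : ∀ j, ¬ NewtonSlopes p (F j) (H j) → 1 / 2 ≤ d j := by
    intro j hj
    by_contra hlt
    push Not at hlt
    apply hj
    obtain ⟨hp, hc⟩ := hd2 j
    exact ⟨hp, close_half hc hlt⟩
  have h2 : (((univ : Finset (Fin m)).filter fun j => ¬ NewtonSlopes p (F j) (H j)).card : ℝ) * (1 / 2)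
      ≤ ∑ j ∈ (univ : Finset (Fin m)).filter (fun j => ¬ NewtonSlopes p (F j) (H j)), d j := by
    rw [← nsmul_eq_mul, ← sum_const]
    exact sum_le_sum fun j hj => h1 j (mem_filter.1 hj).2
  have h3 : ∑ j ∈ (univ : Finset (Fin m)).filter (fun j => ¬ NewtonSlopes p (F j) (H j)), d j ≤
      ∑ j, d j := sum_le_sum_of_subset_of_nonneg (filter_subset _ _) fun j _ _ => hd0 j
  linarith

end Pool.Agent.K3h54.VS
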