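import Pool.Agent.K3h30.VD.Bound
import Pool.Agent.K3h30.OC.Tau

/-!
# Second moments of the Newton polygons of direct summands
-/

set_option autoImplicit false
set_option linter.all false

namespace Pool.Agent.K3h54.VS

open NumberField IsDedekindDomain Polynomial Filter Topology Finset
open Pool.Agent.W401.Cheb Pool.Agent.W528.Ord Pool.Agent.K3h30.NH Pool.Agent.K3h30.OC
open Pool.Agent.K3h30.VD Pool.Agent.W850.Ord
open Pool.Agent.R915.Ord (Piece polygon)

/-- The members of `N` are the `p ^ (-a)`, where `a` runs through `card H` real slopes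
`ν 0 ≤ ν 1 ≤ ...`; the polygon with the slopes `ν` lies on or above the polygon with the slopes
`h 0 ≤ h 1 ≤ ...`, the members of `H`, and has the same end point; the difference of the second moments
is `Σ (h i) ^ 2 - Σ (ν i) ^ 2 = d`, and `Σ (h i - ν i) ^ 2 ≤ d`. -/
def Dist (p : ℕ) (N : Multiset ℝ) (H : Multiset ℕ) (d : ℝ) : Prop :=
  ∃ ν : ℕ → ℝ, (∀ i, i + 1 < Multiset.card H → ν i ≤ ν (i + 1)) ∧
    N = (Multiset.range (Multiset.card H)).map (fun i => (1 / (p : ℝ)) ^ (ν i)) ∧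
    (∀ k ≤ Multiset.card H, ∑ i ∈ range k, (hs H i : ℝ) ≤ ∑ i ∈ range k, ν i) ∧
    ∑ i ∈ range (Multiset.card H), ν i = ∑ i ∈ range (Multiset.card H), (hs H i : ℝ) ∧
    ∑ i ∈ range (Multiset.card H), (hs H i : ℝ) ^ 2 - ∑ i ∈ range (Multiset.card H), ν i ^ 2 = d ∧
    ∑ i ∈ range (Multiset.card H), ((hs H i : ℝ) - ν i) ^ 2 ≤ d

theorem additive {α ι : Type} (f : Multiset α → ℝ) (h0 : f 0 = 0) (hadd : ∀ a b, f (a + b) = f a + f b)
    (s : Finset ι) (N : ι → Multiset α) : f (∑ j ∈ s, N j) = ∑ j ∈ s, f (N j) := by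
  classical
  induction s using Finset.induction_on with
  | empty => simpa using h0
  | insert a s ha ih => rw [sum_insert ha, sum_insert ha, hadd, ih]

section

variable {p : ℕ} [hp : Fact p.Prime]

theorem close_sums {N : Multiset ℝ} {H : Multiset ℕ} {t : ℝ} (h : Close p N H t) :
    (∀ x ∈ N, 0 < x) ∧ (nu p N).sum = (ho H).sum ∧ s2 (ho H) - s2 (nu p N) ≤ t := by
  have hp1 := p_one (p := p)
  obtain ⟨ν, h1, h2, h3, h4, h5, h6, h7⟩ := h
  have hq : (0 : ℝ) < 1 / (p : ℝ) := by positivity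
  have e : nu p N = (Multiset.range (Multiset.card H)).map ν := by
    unfold nu
    rw [h2, Multiset.map_map]
    apply Multiset.map_congr rfl
    intro i _
    simp only [Function.comp]
    rw [one_div, Real.inv_rpow (by linarith), Real.logb_inv, Real.logb_rpow (by linarith)
      (by linarith), neg_neg]
  refine ⟨?_, ?_, ?_⟩
  · intro x hx
    rw [h2, Multiset.mem_map] at hx
    obtain ⟨i, _, rfl⟩ := hx
    exact Real.rpow_pos_of_pos hq _
  · rw [e, sum_ho, ← h4]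
    rfl
  · have e2 : s2 (nu p N) = ∑ i ∈ range (Multiset.card H), ν i ^ 2 := by
      rw [e]
      unfold s2
      rw [Multiset.map_map]
      rfl
    rw [e2, s2_ho]
    exact h7

theorem facts {N : Multiset ℝ} {H : Multiset ℕ} (h0 : ∀ x ∈ N, 0 < x)
    (hc : Multiset.card N = Multiset.card H)
    (hg : ∀ r : ℝ, 0 < r → gn r N ≤ gn r (H.map fun a => (1 / (p : ℝ)) ^ a))
    (he : (nu p N).sum = (ho H).sum) :
    (∀ i, i + 1 < Multiset.card H → ns p N i ≤ ns p N (i + 1)) ∧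
    N = (Multiset.range (Multiset.card H)).map (fun i => (1 / (p : ℝ)) ^ (ns p N i)) ∧
    (∀ k ≤ Multiset.card H, ∑ i ∈ range k, (hs H i : ℝ) ≤ ∑ i ∈ range k, ns p N i) ∧
    ∑ i ∈ range (Multiset.card H), ns p N i = ∑ i ∈ range (Multiset.card H), (hs H i : ℝ) ∧
    ∑ i ∈ range (Multiset.card H), (hs H i : ℝ) ^ 2 -
      ∑ i ∈ range (Multiset.card H), ns p N i ^ 2 = s2 (ho H) - s2 (nu p N) ∧
    ∑ i ∈ range (Multiset.card H), ((hs H i : ℝ) - ns p N i) ^ 2 ≤ s2 (ho H) - s2 (nu p N) := by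
  refine ⟨fun i hi => ns_mono h0 (by rw [hc]; exact hi), ?_, above h0 hc hg, ?_, ?_,
    moment_mazur h0 hc hg he⟩
  · rw [← hc]
    exact (map_rpow_ns h0).symm
  · rw [sum_nu, hc, sum_ho] at he
    exact he
  · rw [s2_ho, s2_nu, hc]

/-- **the second moments of the parts** -/
theorem split {ι : Type} [Fintype ι] {N : ι → Multiset ℝ} {H : ι → Multiset ℕ} {t : ℝ}
    (h : Close p (∑ j, N j) (∑ j, H j) t) (hc : ∀ j, Multiset.card (N j) = Multiset.card (H j))
    (hg : ∀ j, ∀ r : ℝ, 0 < r → gn r (N j) ≤ gn r ((H j).map fun a => (1 / (p : ℝ)) ^ a)) :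
    (∀ j, ∀ x ∈ N j, 0 < x) ∧ ∃ d : ι → ℝ, (∀ j, 0 ≤ d j) ∧ ∑ j, d j ≤ t ∧
      (∀ j, s2 (ho (H j)) - s2 (nu p (N j)) = d j) ∧
      (∀ j, (nu p (N j)).sum = (ho (H j)).sum) := by
  classical
  obtain ⟨hpos, hsum, hs2⟩ := close_sums h
  have hpos' : ∀ j, ∀ x ∈ N j, 0 < x := fun j x hx =>
    hpos x (Multiset.mem_sum.2 ⟨j, mem_univ j, hx⟩)
  have e1 : (nu p (∑ j, N j)).sum = ∑ j, (nu p (N j)).sum :=
    additive (fun M => (nu p M).sum) (by simp [nu]) (fun a b => by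
      simp only [nu, Multiset.map_add, Multiset.sum_add]) univ N
  have e2 : (ho (∑ j, H j)).sum = ∑ j, (ho (H j)).sum :=
    additive (fun M => (ho M).sum) (by simp [ho]) (fun a b => by
      simp only [ho, Multiset.map_add, Multiset.sum_add]) univ H
  have e3 : s2 (nu p (∑ j, N j)) = ∑ j, s2 (nu p (N j)) :=
    additive (fun M => s2 (nu p M)) (by simp [nu, s2]) (fun a b => by
      simp only [nu, s2, Multiset.map_add, Multiset.sum_add]) univ N
  have e4 : s2 (ho (∑ j, H j)) = ∑ j, s2 (ho (H j)) :=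
    additive (fun M => s2 (ho M)) (by simp [ho, s2]) (fun a b => by
      simp only [ho, s2, Multiset.map_add, Multiset.sum_add]) univ H
  have hle : ∀ j, (ho (H j)).sum ≤ (nu p (N j)).sum := fun j => sum_above (hpos' j) (hc j) (hg j)
  have heq : ∀ j, (nu p (N j)).sum = (ho (H j)).sum := by
    rw [e1, e2] at hsum
    have := (sum_eq_sum_iff_of_le fun j _ => hle j).1 hsum.symm
    exact fun j => (this j (mem_univ j)).symm
  refine ⟨hpos', fun j => s2 (ho (H j)) - s2 (nu p (N j)), fun j =>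
    s2_le (hpos' j) (hc j) (hg j) (heq j), ?_, fun j => rfl, heq⟩
  rw [sum_sub_distrib, ← e3, ← e4]
  exact hs2

end

/-- the roots of `f` are algebraic numbers, and their slopes for `τ` satisfy `Dist` -/
def HasDist {ℓ p : ℕ} [Fact ℓ.Prime] [Fact p.Prime] (f : Polynomial (PadicAlgCl ℓ))
    (τ : algebraicClosure ℚ (PadicAlgCl ℓ) →+* PadicAlgCl p) (H : Multiset ℕ) (d : ℝ) : Prop :=
  ∃ e : Multiset (algebraicClosure ℚ (PadicAlgCl ℓ)),
    e.map (algebraMap _ (PadicAlgCl ℓ)) = f.roots ∧ Dist p (e.map fun y => ‖τ y‖) H d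

/-- the parts of the realisations -/
theorem hasDist_parts {ℓ p : ℕ} [Fact ℓ.Prime] [Fact p.Prime] {m : ℕ}
    (f : Polynomial (PadicAlgCl ℓ)) (g : Fin m → Polynomial (PadicAlgCl ℓ)) (hg : ∀ j, g j ≠ 0)
    (τ : algebraicClosure ℚ (PadicAlgCl ℓ) →+* PadicAlgCl p) (H : Multiset ℕ)
    (H' : Fin m → Multiset ℕ) (t : ℝ)
    (hV : ∃ e : Multiset (algebraicClosure ℚ (PadicAlgCl ℓ)),
      e.map (algebraMap _ (PadicAlgCl ℓ)) = f.roots ∧ Close p (e.map fun y => ‖τ y‖) H t)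
    (hch : f = ∏ j, g j) (hH : ∑ j, H' j = H) (h1 : ∀ j, LiesAboveTau (g j) τ (H' j)) :
    ∃ d : Fin m → ℝ, (∀ j, 0 ≤ d j) ∧ ∑ j, d j ≤ t ∧ ∀ j, HasDist (g j) τ (H' j) (d j) := by
  obtain ⟨e, he, heH⟩ := hV
  choose e' he' hc' ha' using h1
  have hinj : Function.Injective (algebraMap (algebraicClosure ℚ (PadicAlgCl ℓ)) (PadicAlgCl ℓ)) :=
    fun x y h => Subtype.ext h
  have hsum : e = ∑ j, e' j := by
    apply Multiset.map_injective hinj
    rw [he, hch, roots_prod _ _ (prod_ne_zero_iff.2 fun j _ => hg j)]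
    rw [← Multiset.coe_mapAddMonoidHom, map_sum]
    simp only [Multiset.coe_mapAddMonoidHom, he']
    rfl
  have hp1 : (0 : ℝ) < p := by exact_mod_cast (Fact.out : p.Prime).pos
  have e1 : (e.map fun y => ‖τ y‖) = ∑ j, (e' j).map fun y => ‖τ y‖ := by
    rw [hsum, ← Multiset.coe_mapAddMonoidHom, map_sum]
  rw [e1, ← hH] at heH
  have hcc : ∀ j, Multiset.card ((e' j).map fun y => ‖τ y‖) = Multiset.card (H' j) := fun j => by
    rw [Multiset.card_map, hc' j]
  have hgg : ∀ j, ∀ r : ℝ, 0 < r → gn r ((e' j).map fun y => ‖τ y‖) ≤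
      gn r ((H' j).map fun a => (1 / (p : ℝ)) ^ a) := by
    intro j r hr
    unfold gn
    rw [Multiset.map_map (fun x => max r x) (fun a => (1 / (p : ℝ)) ^ a)]
    refine gauss_of_sub (1 / (p : ℝ)) (by positivity) _ _ (hcc j) ?_ r hr
    intro s hs
    obtain ⟨t, ht, rfl⟩ : ∃ t ≤ e' j, t.map (fun y => ‖τ y‖) = s := le_map _ _ _ hs
    rw [Multiset.card_map]
    exact ha' j t ht
  obtain ⟨hpos, d, hd0, hd1, hd2, hd3⟩ := split heH hcc hgg
  refine ⟨d, hd0, hd1, fun j => ⟨e' j, he' j, ?_⟩⟩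
  obtain ⟨f1, f2, f3, f4, f5, f6⟩ := facts (hpos j) (hcc j) (hgg j) (hd3 j)
  rw [hd2 j] at f5 f6
  exact ⟨_, f1, f2, f3, f4, f5, f6⟩

/-- Mazur's inequality for an integral polynomial -/
def MazurSlopes (p : ℕ) (F : ℤ[X]) (H : Multiset ℕ) : Prop :=
  ∃ _ : Fact p.Prime, Multiset.card (F.map (Int.castRingHom (PadicAlgCl p))).roots =
    Multiset.card H ∧ ∀ s ≤ (F.map (Int.castRingHom (PadicAlgCl p))).roots,
      (s.map fun y => ‖y‖).prod ≤ (1 / (p : ℝ)) ^ polygon H (Multiset.card s)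

/-- the parts with integral polynomials -/
theorem closeSlopes_parts {p m : ℕ} {F : Fin m → ℤ[X]} (hF : ∀ j, F j ≠ 0) {H : Fin m → Multiset ℕ}
    {t : ℝ} (h : CloseSlopes p (∏ j, F j) (∑ j, H j) t) (hM : ∀ j, MazurSlopes p (F j) (H j)) :
    ∃ d : Fin m → ℝ, (∀ j, 0 ≤ d j) ∧ ∑ j, d j ≤ t ∧ ∀ j, CloseSlopes p (F j) (H j) (d j) := by
  obtain ⟨hp, h⟩ := h
  have hinj : Function.Injective (Int.castRingHom (PadicAlgCl p)) := RingHom.injective_int _
  have hF' : ∀ j, (F j).map (Int.castRingHom (PadicAlgCl p)) ≠ 0 := fun j => by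
    rw [Ne, Polynomial.map_eq_zero_iff hinj]
    exact hF j
  have e1 : (((∏ j, F j).map (Int.castRingHom (PadicAlgCl p))).roots.map fun y => ‖y‖) =
      ∑ j, ((F j).map (Int.castRingHom (PadicAlgCl p))).roots.map fun y => ‖y‖ := by
    rw [Polynomial.map_prod, roots_prod _ _ (prod_ne_zero_iff.2 fun j _ => hF' j),
      ← Multiset.coe_mapAddMonoidHom]
    change (Multiset.mapAddMonoidHom fun y => ‖y‖) (∑ j, ((F j).map (Int.castRingHom
      (PadicAlgCl p))).roots) = _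
    rw [map_sum]
  rw [e1] at h
  have hc : ∀ j, Multiset.card (((F j).map (Int.castRingHom (PadicAlgCl p))).roots.map
      fun y => ‖y‖) = Multiset.card (H j) := fun j => by
    obtain ⟨_, h1, _⟩ := hM j
    rw [Multiset.card_map, h1]
  have hg : ∀ j, ∀ r : ℝ, 0 < r →
      gn r (((F j).map (Int.castRingHom (PadicAlgCl p))).roots.map fun y => ‖y‖) ≤
      gn r ((H j).map fun a => (1 / (p : ℝ)) ^ a) := by
    intro j r hr
    unfold gn
    rw [Multiset.map_map (fun x => max r x) (fun a => (1 / (p : ℝ)) ^ a)]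
    have hp1 := p_one (p := p)
    refine gauss_of_sub (1 / (p : ℝ)) (by positivity) _ _ (hc j) ?_ r hr
    intro s hs
    obtain ⟨t, ht, rfl⟩ : ∃ t ≤ ((F j).map (Int.castRingHom (PadicAlgCl p))).roots,
      t.map (fun y => ‖y‖) = s := le_map _ _ _ hs
    rw [Multiset.card_map]
    obtain ⟨_, _, h2⟩ := hM j
    exact h2 t ht
  obtain ⟨hpos, d, hd0, hd1, hd2, hd3⟩ := split h hc hg
  refine ⟨d, hd0, hd1, fun j => ⟨hp, ?_⟩⟩
  obtain ⟨f1, f2, f3, f4, f5, f6⟩ := facts (hpos j) (hc j) (hg j) (hd3 j)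
  rw [hd2 j] at f5 f6
  refine ⟨_, f1, f2, f3, f4, ?_, by rw [f5]; exact f6, f5.le⟩
  intro k hk0 hk hlt
  exact vertex_int (p := p) (F j) (hpos j) k hk0 (by rw [hc j]; exact hk) hlt

end Pool.Agent.K3h54.VS
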